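import Pool.Agent.Helper75.KS.GoalsA

/-!
# Packet KS-RAY (MP_480c30_co): the law of a difference of two coordinates
-/

namespace Pool.Agent.Helper51.KS

open MeasureTheory Filter Topology Set Finset
open Pool.Agent.Helper44.KS Pool.Agent.Helper75.KS

theorem ray : RayStmt := by
  intro c Z p q
  have hcont : Continuous fun d : Fin Z.n → ℝ => d p - d q := by fun_prop
  have hm : Measurable fun d : Fin Z.n → ℝ => d p - d q := hcont.measurable
  have hconv : ∀ s : ℝ, Convex ℝ ((fun d : Fin Z.n → ℝ => d p - d q) ⁻¹' Ioi s) := by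
    intro s u hu v hv a b ha hb hab
    simp only [Set.mem_preimage, Set.mem_Ioi, Pi.add_apply, Pi.smul_apply, smul_eq_mul] at *
    rcases eq_or_lt_of_le ha with h | h
    · have hb1 : b = 1 := by linarith
      subst h; subst hb1
      linarith
    · have e1 : s = a * s + b * s := by rw [← add_mul, hab, one_mul]
      have e2 := mul_nonneg hb (le_of_lt (sub_pos.2 hv))
      have e3 := mul_pos h (sub_pos.2 hu)
      rw [mul_sub] at e2 e3
      linarith [mul_sub a (u p) (u q), mul_sub b (v p) (v q)]
  have hconv' : ∀ s : ℝ, Convex ℝ ((fun d : Fin Z.n → ℝ => d p - d q) ⁻¹' Iio s) := by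
    intro s u hu v hv a b ha hb hab
    simp only [Set.mem_preimage, Set.mem_Iio, Pi.add_apply, Pi.smul_apply, smul_eq_mul] at *
    rcases eq_or_lt_of_le ha with h | h
    · have hb1 : b = 1 := by linarith
      subst h; subst hb1
      linarith
    · have e1 : s = a * s + b * s := by rw [← add_mul, hab, one_mul]
      have e2 := mul_nonneg hb (le_of_lt (sub_pos.2 hv))
      have e3 := mul_pos h (sub_pos.2 hu)
      rw [mul_sub] at e2 e3
      linarith [mul_sub a (u p) (u q), mul_sub b (v p) (v q)]
  have hint : Integrable (fun d : Fin Z.n → ℝ => d p - d q) Z.μ := (Z.int p).sub (Z.int q)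
  have hmea : mea (Z.μ.map fun d => d p - d q) = Z.a p - Z.a q := by
    unfold mea
    rw [integral_map hm.aemeasurable (by fun_prop)]
    exact integral_sub (Z.int p) (Z.int q)
  refine ⟨⟨Measure.isProbabilityMeasure_map hm.aemeasurable, ?_, ?_⟩, ?_, hmea, ?_⟩
  · intro s s' t ht ht1
    rw [map_measureReal_apply hm measurableSet_Ioi, map_measureReal_apply hm measurableSet_Ioi,
      map_measureReal_apply hm measurableSet_Ioi]
    refine Z.lc _ _ _ t (isOpen_Ioi.preimage hcont) (isOpen_Ioi.preimage hcont)
      (isOpen_Ioi.preimage hcont) (hconv s) (hconv s') ht ht1 ?_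
    intro u hu v hv
    simp only [Set.mem_preimage, Set.mem_Ioi, Pi.add_apply, Pi.smul_apply, smul_eq_mul] at *
    nlinarith [mul_pos ht (sub_pos.2 hv), mul_pos (sub_pos.2 ht1) (sub_pos.2 hu)]
  · intro s s' t ht ht1
    rw [map_measureReal_apply hm measurableSet_Iio, map_measureReal_apply hm measurableSet_Iio,
      map_measureReal_apply hm measurableSet_Iio]
    refine Z.lc _ _ _ t (isOpen_Iio.preimage hcont) (isOpen_Iio.preimage hcont)
      (isOpen_Iio.preimage hcont) (hconv' s) (hconv' s') ht ht1 ?_
    intro u hu v hv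
    simp only [Set.mem_preimage, Set.mem_Iio, Pi.add_apply, Pi.smul_apply, smul_eq_mul] at *
    nlinarith [mul_pos ht (sub_pos.2 hv), mul_pos (sub_pos.2 ht1) (sub_pos.2 hu)]
  · exact (integrable_map_measure (by fun_prop) hm.aemeasurable).2 hint
  · unfold mdv
    rw [hmea, integral_map hm.aemeasurable (by fun_prop)]
    unfold KSys.dist KSys.Y
    congr 1
    ext d
    congr 1
    ring

end Pool.Agent.Helper51.KS
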