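import Pool.Agent.Helper75.KS.GoalsA

/-!
# Packet KS-TPR (MP_480c30_co): the one-dimensional facts for the systems
-/

namespace Pool.Agent.Helper51.KS

open MeasureTheory Filter Topology Set Finset
open Pool.Agent.Helper44.KS Pool.Agent.Helper75.KS

theorem tpr (h1 : RayStmt) (h2 : LtaStmt) (h3 : LmoStmt) (h4 : LsbStmt) : TprStmt := by
  intro c Z p q
  obtain ⟨hL, hI, hmea, hmdv⟩ := h1 c Z p q
  have hcont : Continuous fun d : Fin Z.n → ℝ => d p - d q := by fun_prop
  have hm : Measurable fun d : Fin Z.n → ℝ => d p - d q := hcont.measurable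
  have hY : ∀ d : Fin Z.n → ℝ, Z.Y d p - Z.Y d q = (d p - d q) - (Z.a p - Z.a q) := by
    intro d
    unfold KSys.Y
    ring
  obtain ⟨i2, b2, i3, b3⟩ := h3 _ hL hI
  rw [hmea, hmdv] at b2 b3
  rw [hmea] at i2 i3
  refine ⟨?_, ⟨?_, ?_⟩, ⟨?_, ?_⟩, ?_⟩
  · intro s hs
    have h := h2 _ hL hI s hs
    rw [hmea, hmdv, map_measureReal_apply hm
      (measurableSet_lt (by fun_prop) (by fun_prop))] at h
    simpa only [hY, Set.preimage_setOf_eq] using h
  · have h := (integrable_map_measure i2.aestronglyMeasurable hm.aemeasurable).1 i2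
    simpa only [hY, Function.comp_def] using h
  · rw [integral_map hm.aemeasurable (by fun_prop)] at b2
    simpa only [hY] using b2
  · have h := (integrable_map_measure i3.aestronglyMeasurable hm.aemeasurable).1 i3
    simpa only [hY, Function.comp_def] using h
  · rw [integral_map hm.aemeasurable (by fun_prop)] at b3
    simpa only [hY] using b3
  · intro b h hh
    have h' := h4 _ hL hI b h hh
    rw [hmdv, map_measureReal_apply hm measurableSet_Icc] at h'
    exact h'

theorem tpx (h : TprStmt) : TpxStmt := by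
  intro c Z p
  have hx : ∀ᵐ d ∂Z.μ, d Z.x = 0 := Z.ref
  have ha : Z.a Z.x = 0 := by
    unfold KSys.a
    rw [integral_congr_ae hx, integral_zero]
  have hYx : ∀ᵐ d ∂Z.μ, Z.Y d Z.x = 0 := by
    filter_upwards [hx] with d hd
    unfold KSys.Y
    rw [hd, ha, sub_zero]
  have hYd : ∀ᵐ d ∂Z.μ, Z.Y d p - Z.Y d Z.x = Z.Y d p := by
    filter_upwards [hYx] with d hd
    rw [hd, sub_zero]
  have hdist : Z.dist p Z.x = ∫ d, |Z.Y d p| ∂Z.μ := by
    unfold KSys.dist
    apply integral_congr_ae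
    filter_upwards [hYd] with d hd
    rw [hd]
  obtain ⟨t1, ⟨t2, t3⟩, ⟨t4, t5⟩, t6⟩ := h c Z p Z.x
  rw [hdist] at t1 t3 t5 t6
  refine ⟨ha, hdist, ?_, ⟨?_, ?_⟩, ⟨?_, ?_⟩, ?_⟩
  · intro s hs
    refine le_of_eq_of_le ?_ (t1 s hs)
    apply measureReal_congr
    filter_upwards [hYd] with d hd
    change (s * ∫ e, |Z.Y e p| ∂Z.μ < |Z.Y d p|) = (s * ∫ e, |Z.Y e p| ∂Z.μ < |Z.Y d p - Z.Y d Z.x|)
    rw [hd]
  · refine t2.congr ?_
    filter_upwards [hYd] with d hd
    rw [hd]
  · refine le_of_eq_of_le ?_ t3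
    apply integral_congr_ae
    filter_upwards [hYd] with d hd
    rw [hd]
  · refine t4.congr ?_
    filter_upwards [hYd] with d hd
    rw [hd]
  · refine le_of_eq_of_le ?_ t5
    apply integral_congr_ae
    filter_upwards [hYd] with d hd
    rw [hd]
  · intro b h' hh
    refine le_of_eq_of_le ?_ (t6 b h' hh)
    congr 1
    apply measureReal_congr
    filter_upwards [hx] with d hd
    change (b ≤ d p ∧ d p ≤ b + h') = (b ≤ d p - d Z.x ∧ d p - d Z.x ≤ b + h')
    rw [hd, sub_zero]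

end Pool.Agent.Helper51.KS
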