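import Pool.Agent.Helper75.KS.GoalsB

/-!
# Packet KS-GPF (MP_480c30_co): the golden partition inequality from balanced pairs
-/

namespace Pool.Agent.Helper51.KS

open Finset
open Pool.Agent.Helper75.KS
open Pool.Agent.Helper89.GP (LX po Ex Pr hh mem_LX Pr_def Pr_split po_lt Pr_eq_zero Pr_congr Pr_true
  Pr_add card_pos_real)

/-- The two orders of a balanced pair. -/
theorem gpf_aux {n : ℕ} {R : Fin n → Fin n → Prop} (hne : (LX R).Nonempty) {u v : Fin n}
    (huv : u ≠ v) (hp : |(Pr R fun σ => po σ u < po σ v) - 1 / 2| ≤ 1 / 100) :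
    ∀ w z, ((w = u ∧ z = v) ∨ (w = v ∧ z = u)) →
      (((LX R).filter fun σ => σ w < σ z).card : ℝ) ≤ 51 / 100 * (LX R).card := by
  have hpos : (0 : ℝ) < (LX R).card := card_pos_real hne
  have hsum : Pr R (fun _ => True) = (Pr R fun σ => po σ u < po σ v) +
      Pr R fun σ => po σ v < po σ u := by
    apply Pr_add
    · intro σ _
      simp only [true_iff]
      exact Pool.Agent.Helper89.GP.po_lt_or huv
    · intro σ _ h1 h2
      exact lt_asymm h1 h2
  rw [Pr_true hne] at hsum
  rw [abs_le] at hp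
  have key : ∀ w z : Fin n, (Pr R fun σ => po σ w < po σ z) ≤ 51 / 100 →
      (((LX R).filter fun σ => σ w < σ z).card : ℝ) ≤ 51 / 100 * (LX R).card := by
    intro w z h
    rw [Pr_def, div_le_iff₀ hpos] at h
    exact h
  rintro w z (⟨rfl, rfl⟩ | ⟨rfl, rfl⟩)
  · exact key _ _ (by linarith [hp.2])
  · exact key _ _ (by linarith [hp.1])

theorem gpf (h1 : KsfStmt) (h2 : LxnStmt) : GpfStmt := by
  classical
  obtain ⟨W, hW⟩ := h1 (1 / 100) (by norm_num)
  refine ⟨2 * W + 2, ?_⟩
  intro n R hR hA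
  obtain ⟨A, hAc, hA⟩ := hA
  obtain ⟨a, b, hab, hp⟩ := hW n R hR ⟨A, by omega, hA⟩
  have hne := h2 n R hR
  have hpos : (0 : ℝ) < (LX R).card := card_pos_real hne
  have hnab : ¬ R a b := by
    intro h
    have e : (Pr R fun σ => po σ a < po σ b) = 1 := by
      rw [← Pr_true hne]
      apply Pr_congr
      intro σ hσ
      simp only [iff_true]
      exact mem_LX.1 hσ a b h
    rw [e] at hp
    norm_num [abs_le] at hp
  have hnba : ¬ R b a := by
    intro h
    have e : (Pr R fun σ => po σ a < po σ b) = 0 := by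
      apply Pr_eq_zero
      intro σ hσ
      have := mem_LX.1 hσ b a h
      exact not_lt_of_gt this
    rw [e] at hp
    norm_num [abs_le] at hp
  refine ⟨a, b, hab, hnab, hnba, ?_⟩
  intro u v huv
  have hcard := gpf_aux hne hab hp u v huv
  have huv' : u ≠ v ∧ ¬ R v u := by
    rcases huv with ⟨rfl, rfl⟩ | ⟨rfl, rfl⟩
    · exact ⟨hab, hnba⟩
    · exact ⟨hab.symm, hnab⟩
  obtain ⟨hne', hnvu⟩ := huv'
  -- the new order
  let R' : Fin n → Fin n → Prop := fun p q => R p q ∨ ((p = u ∨ R p u) ∧ (q = v ∨ R v q))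
  have hR'uv : R' u v := Or.inr ⟨Or.inl rfl, Or.inl rfl⟩
  -- no element is below `u` and above `v`
  have hno : ∀ p, ¬ ((p = u ∨ R p u) ∧ (p = v ∨ R v p)) := by
    rintro p ⟨h | h, h' | h'⟩
    · exact hne' (h.symm.trans h')
    · subst h
      exact hnvu h'
    · subst h'
      exact hnvu h
    · exact hnvu (hR.tr _ _ _ h' h)
  have hSpo : Spo R' := by
    constructor
    · rintro x y z (hxy | ⟨hx, hy⟩) (hyz | ⟨hy', hz⟩)
      · exact Or.inl (hR.tr _ _ _ hxy hyz)
      · refine Or.inr ⟨?_, hz⟩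
        rcases hy' with h | h
        · subst h
          exact Or.inr hxy
        · exact Or.inr (hR.tr _ _ _ hxy h)
      · refine Or.inr ⟨hx, ?_⟩
        rcases hy with h | h
        · subst h
          exact Or.inr hyz
        · exact Or.inr (hR.tr _ _ _ h hyz)
      · exact Or.inr ⟨hx, hz⟩
    · rintro x (h | h)
      · exact hR.ir _ h
      · exact hno x h
  have hLX : LX R' = (LX R).filter fun σ => σ u < σ v := by
    ext σ
    rw [mem_filter, mem_LX, mem_LX]
    constructor
    · intro h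
      exact ⟨fun p q hpq => h p q (Or.inl hpq), h u v hR'uv⟩
    · rintro ⟨h, huv2⟩ p q (hpq | ⟨hp1, hq1⟩)
      · exact h p q hpq
      · have e1 : σ p ≤ σ u := by
          rcases hp1 with rfl | h'
          · exact le_rfl
          · exact (h _ _ h').le
        have e2 : σ v ≤ σ q := by
          rcases hq1 with rfl | h'
          · exact le_rfl
          · exact (h _ _ h').le
        exact lt_of_le_of_lt e1 (lt_of_lt_of_le huv2 e2)
  -- the antichain
  have hA' : ∃ A' : Finset (Fin n), W ≤ A'.card ∧ ∀ x ∈ A', ∀ y ∈ A', ¬ R' x y := by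
    let D := A.filter fun p => p = u ∨ R p u
    let U := A.filter fun p => p = v ∨ R v p
    have hDU : Disjoint D U := by
      rw [Finset.disjoint_left]
      intro p hpD hpU
      exact hno p ⟨(mem_filter.1 hpD).2, (mem_filter.1 hpU).2⟩
    have hDA : D ⊆ A := filter_subset _ _
    have hUA : U ⊆ A := filter_subset _ _
    have hc : D.card + U.card ≤ A.card := by
      rw [← card_union_of_disjoint hDU]
      exact card_le_card (union_subset hDA hUA)
    have hD : (A \ D).card = A.card - D.card := card_sdiff_of_subset hDA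
    have hU : (A \ U).card = A.card - U.card := card_sdiff_of_subset hUA
    rcases le_total D.card U.card with hle | hle
    · refine ⟨A \ D, by omega, ?_⟩
      rintro x hx y hy (h | h)
      · exact hA x (mem_sdiff.1 hx).1 y (mem_sdiff.1 hy).1 h
      · exact (mem_sdiff.1 hx).2 (mem_filter.2 ⟨(mem_sdiff.1 hx).1, h.1⟩)
    · refine ⟨A \ U, by omega, ?_⟩
      rintro x hx y hy (h | h)
      · exact hA x (mem_sdiff.1 hx).1 y (mem_sdiff.1 hy).1 h
      · exact (mem_sdiff.1 hy).2 (mem_filter.2 ⟨(mem_sdiff.1 hy).1, h.2⟩)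
  obtain ⟨c, d, hcd, hp'⟩ := hW n R' hSpo hA'
  have hcard' := gpf_aux (h2 n R' hSpo) hcd hp'
  refine ⟨c, d, hcd, ?_⟩
  intro w z hwz
  have e := hcard' w z hwz
  have e2 : (LX R').filter (fun σ => σ w < σ z) =
      (LX R).filter fun σ => σ u < σ v ∧ σ w < σ z := by
    rw [hLX, filter_filter]
  rw [e2, hLX] at e
  have : (((LX R).filter fun σ => σ u < σ v).card : ℝ) +
      ((LX R).filter fun σ => σ u < σ v ∧ σ w < σ z).card ≤ (LX R).card := by
    nlinarith
  exact_mod_cast this

end Pool.Agent.Helper51.KS
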